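import Pool.Agent.H7.JB.Stmts

/-!
# Row MANW of the board `jb14`: the triangles meeting a block (the proof of row MAN of `hz12`, typed by
helper62, with `PrW` in place of `PrZ`)
-/

set_option autoImplicit false

open Finset

namespace Pool.JB7

open Pool.Agent.H23.KT Pool.Agent.H46.KW Pool.KQ Pool.GT7 Pool.GU7 Pool.HZ7

/-- parity of the sum of the deficits -/
theorem manw_par (p r a D : ℕ) (n σ : Fin (p + 4) → ℕ) (hr : r ≤ p) (hn : ∀ j, n j + σ j = a + 1)
    (hs : ∑ j, σ j + r = p + 3) (he : Even (∑ j, n j * σ j + D)) :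
    Even D ↔ Even ((p + 3 - r) * a) := by
  have hq : ∑ j, σ j = p + 3 - r := by omega
  have h1 : Even (∑ j, (n j * σ j + a * σ j)) := by
    refine Finset.even_sum _ fun j _ => ?_
    rcases Nat.even_or_odd (σ j) with h | h
    · exact (h.mul_left _).add (h.mul_left _)
    · rw [← add_mul]
      refine Even.mul_right ?_ _
      obtain ⟨t, ht⟩ := h
      have := hn j
      exact ⟨a - t, by omega⟩
  rw [sum_add_distrib, ← mul_sum, hq] at h1
  have e1 := Nat.even_add.1 he
  have e2 := Nat.even_add.1 h1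
  rw [mul_comm (p + 3 - r) a]
  exact e1.symm.trans e2

theorem manw_quad {V : Type} (S : Finset V) (f : V → ℕ) (h : ∑ u ∈ S, f u ≤ 1) :
    ∑ u ∈ S, ((f u : ℝ) * ((f u : ℝ) - 1)) / 2 = 0 := by
  refine sum_eq_zero fun u hu => ?_
  have h1 : f u ≤ 1 := (single_le_sum (f := f) (fun _ _ => Nat.zero_le _) hu).trans h
  rcases Nat.le_one_iff_eq_zero_or_eq_one.1 h1 with h2 | h2
  · rw [h2]
    simp
  · rw [h2]
    simp

theorem manw_thm (h1 : DLBWStmt) (h2 : KUBStmt) (h3 : CQBWStmt) (h4 : CQSStmt) (h5 : CRSStmt)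
    (h6 : NS1WStmt) (h7 : NS2WStmt) : MANWStmt := by
  intro p r hpr C hC
  obtain ⟨K, hK⟩ := h1 p r hpr C hC
  obtain ⟨a1, ha1⟩ := h3 p r hpr (max C K) (lt_max_of_lt_left hC)
  obtain ⟨a2, ha2⟩ := h6 p r hpr
  obtain ⟨a3, ha3⟩ := h7 p r hpr K
  refine ⟨K + a1 + a2 + a3 + (2 * (400 * (p + 5) ^ 2) ^ 2 + 2), ?_⟩
  intro a ha V _ _ G Q hG hQ
  obtain ⟨s, σ, hs1, hsK, hσK, hn, hσr, hcard, hh, hout, hdl4, hD, heven⟩ :=
    hK a (by omega) G Q hG hQ
  have haR : (0 : ℝ) ≤ a := Nat.cast_nonneg a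
  have hCC : C ≤ max C K := le_max_left _ _
  have hKC : (K : ℝ) ≤ max C K := le_max_right _ _
  have hQ' : Blb G p r a (max C K) Q :=
    { hQ with
      siz := fun j => ⟨(hQ.siz j).1.trans (by linarith), (hQ.siz j).2.trans (by linarith)⟩
      tot := hQ.tot.trans (mul_le_mul_of_nonneg_right hCC haR) }
  have c1 := ha1 a (by omega) G Q hG hQ' hout hdl4
    (hD.trans (mul_le_mul_of_nonneg_right hCC haR))
  have c2 := h2 p r a s G Q σ hQ.par hn hcard hh
  obtain ⟨c3, c4⟩ := h5 G (un Q)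
  have c5 := h4 p r a G (un Q) hout
  have c3' : (kc G univ 3 : ℝ) ≤ kc G (univ \ un Q) 3 + kc G (un Q) 3 +
      ∑ z ∈ un Q, (((nb G (univ \ un Q) z).card).choose 2 : ℝ) +
      ∑ q ∈ univ \ un Q, (kc G (nb G (un Q) q) 2 : ℝ) := by
    exact_mod_cast c3
  have hDc : ((∑ u ∈ un Q, dl G p r a (un Q) u : ℕ) : ℝ) =
      ∑ u ∈ un Q, (dl G p r a (un Q) u : ℝ) := by
    push_cast
    rfl
  have hD0 : 0 ≤ ∑ u ∈ un Q, (dl G p r a (un Q) u : ℝ) :=
    sum_nonneg fun _ _ => Nat.cast_nonneg _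
  have hsKR : (s : ℝ) ≤ K := by exact_mod_cast hsK
  have hr0 : (0 : ℝ) ≤ r := Nat.cast_nonneg r
  have hp0 : (0 : ℝ) ≤ p := Nat.cast_nonneg p
  have hs0 : (0 : ℝ) ≤ s := Nat.cast_nonneg s
  have hrp : (r : ℝ) ≤ p := by exact_mod_cast hpr.rp
  -- the general bound
  have key : (kc G univ 3 : ℝ) - kc G (univ \ un Q) 3 ≤
      Psi p r a s (fun j => (Q j).card) σ -
        a / (400 * ((p : ℝ) + 5)) * ∑ u ∈ un Q, (dl G p r a (un Q) u : ℝ) := by
    have e1 : 0 ≤ (max C K - (s : ℝ) / 2 + (r : ℝ) / 2) *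
        ∑ u ∈ un Q, (dl G p r a (un Q) u : ℝ) := by
      refine mul_nonneg ?_ hD0
      linarith
    nlinarith
  have hnR : (0 : ℝ) ≤ ((((p + 3) * a + r + a + 1 : ℕ)) : ℝ) := Nat.cast_nonneg _
  by_cases hs2 : 2 ≤ s
  · have e1 := ha3 a (by omega) s hs2 hsK (fun j => (Q j).card) σ hn hσK hσr
    rw [hcard]
    refine le_trans (mul_le_mul_of_nonneg_right (key.trans ?_) hnR) e1
    have e2 : 0 ≤ a / (400 * ((p : ℝ) + 5)) * ∑ u ∈ un Q, (dl G p r a (un Q) u : ℝ) :=
      mul_nonneg (by positivity) hD0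
    linarith
  · have hs : s = 1 := by omega
    subst hs
    rw [hcard, mul_comm (kx p r a)]
    rw [mul_comm]
    refine mul_le_mul_of_nonneg_left ?_ hnR
    have hY := ha2 a (by omega) (fun j => (Q j).card) σ hn (by omega)
    have hpar := manw_par p r a _ (fun j => (Q j).card) σ hpr.rp hn (by omega) heven
    have hX : Xz p r a = ((p : ℝ) + 2) * a + r + 1 := rfl
    have hX0 : 0 ≤ Xz p r a := by
      rw [hX]
      positivity
    have hkx : kx p r a = (TT (p + 4) 3 a (r + 1) : ℝ) -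
        1 / 2 * (((p + 3 - r : ℕ) : ℝ) * a) * Xz p r a -
        (if Even ((p + 3 - r) * a) then 0 else Xz p r a / 2 - 1) := rfl
    set D := ∑ u ∈ un Q, dl G p r a (un Q) u with hDdef
    have hcz : ∑ z ∈ un Q, (nb G (univ \ un Q) z).card ≤ D := sum_le_sum hout
    by_cases hD2 : 2 ≤ D
    · -- many deficits
      have hge : (TT (p + 4) 3 a (r + 1) : ℝ) -
          1 / 2 * (((p + 3 - r : ℕ) : ℝ) * a) * Xz p r a - Xz p r a / 2 ≤ kx p r a := by
        rw [hkx]
        split_ifs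
        · linarith
        · linarith
      refine le_trans ?_ hge
      rw [← hDc] at key c1 c2 c5
      have hD2R : (2 : ℝ) ≤ (D : ℝ) := by exact_mod_cast hD2
      by_cases hbig : Xz p r a / 2 ≤ a / (400 * ((p : ℝ) + 5)) * (D : ℝ)
      · linarith
      · have hlt := not_le.1 hbig
        have ha1' : (1 : ℝ) ≤ a := by
          have : 1 ≤ a := by omega
          exact_mod_cast this
        -- `D` is bounded
        have hDM : (D : ℝ) ≤ 400 * ((p : ℝ) + 5) ^ 2 := by
          by_contra hcon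
          have hcon := not_le.1 hcon
          have e1 : a * ((p : ℝ) + 5) ≤ a / (400 * ((p : ℝ) + 5)) * (D : ℝ) := by
            have e2 : a / (400 * ((p : ℝ) + 5)) * (400 * ((p : ℝ) + 5) ^ 2) ≤
                a / (400 * ((p : ℝ) + 5)) * (D : ℝ) :=
              mul_le_mul_of_nonneg_left hcon.le (by positivity)
            have e3 : a / (400 * ((p : ℝ) + 5)) * (400 * ((p : ℝ) + 5) ^ 2) =
                a * ((p : ℝ) + 5) := by
              field_simp
            linarith
          rw [hX] at hlt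
          nlinarith
        have hMa : 2 * (400 * ((p : ℝ) + 5) ^ 2) ^ 2 + 2 ≤ (a : ℝ) := by
          have : 2 * (400 * (p + 5) ^ 2) ^ 2 + 2 ≤ a := by omega
          exact_mod_cast this
        have hDsq : (D : ℝ) ^ 2 ≤ (400 * ((p : ℝ) + 5) ^ 2) ^ 2 :=
          pow_le_pow_left₀ (by linarith) hDM 2
        have e4 : (((p : ℝ) + 2) * a + r - 1) * 2 ≤ (((p : ℝ) + 2) * a + r - 1) * (D : ℝ) := by
          refine mul_le_mul_of_nonneg_left hD2R ?_
          nlinarith
        have e5 : 2 * (a : ℝ) ≤ ((p : ℝ) + 2) * a := by nlinarith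
        push_cast at c2
        rw [hX]
        rw [hX] at hY
        linarith
    · have hD1 : D ≤ 1 := by omega
      have c4' := c4 (hcz.trans hD1)
      have c4R : (kc G univ 3 : ℝ) ≤ kc G (univ \ un Q) 3 + kc G (un Q) 3 := by
        exact_mod_cast c4'
      have hq := manw_quad (un Q) (fun u => dl G p r a (un Q) u) hD1
      rw [hq, ← hDc] at c2
      rcases Nat.le_one_iff_eq_zero_or_eq_one.1 hD1 with h0 | h0
      · have hev : Even ((p + 3 - r) * a) := hpar.1 (by rw [h0]; exact Even.zero)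
        rw [hkx, if_pos hev]
        rw [h0] at c2
        push_cast at c2 hY ⊢
        linarith
      · have hev : ¬ Even ((p + 3 - r) * a) := fun hc => by
          have := hpar.2 hc
          rw [h0] at this
          exact absurd this (by decide)
        rw [hkx, if_neg hev]
        rw [h0] at c2
        rw [hX]
        rw [hX] at hY
        push_cast at c2 hY ⊢
        linarith

end Pool.JB7
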